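import Mathlib

/-! Transfinite diameter and essential transfinite diameter in a metric probability space. -/

open MeasureTheory Filter Topology Set
open scoped ENNReal

namespace Q68.TD

variable {S : Type*}

/-- `ρ_n(A)`: the supremum of `∏_{i<j} d(p_i,p_j)^{2/(n(n-1))}` over the `n`-tuples of points of
`A`. -/
noncomputable def rhoN [MetricSpace S] (n : ℕ) (A : Set S) : ℝ≥0∞ :=
  ⨆ (p : Fin n → S) (_ : ∀ i, p i ∈ A),
    ∏ i, ∏ j ∈ Finset.Ioi i, edist (p i) (p j) ^ (2 / ((n : ℝ) * ((n : ℝ) - 1)))

/-- The transfinite diameter `ρ(A)`, the limit of `ρ_n(A)` (written as an upper limit). -/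
noncomputable def rho [MetricSpace S] (A : Set S) : ℝ≥0∞ :=
  limsup (fun n => rhoN n A) atTop

/-- The essential transfinite diameter. -/
noncomputable def essRho [MetricSpace S] [MeasurableSpace S] (P : Measure S) (A : Set S) : ℝ≥0∞ :=
  ⨅ (B : Set S) (_ : B ⊆ A) (_ : MeasurableSet B) (_ : P B = P A), rho B

/-- `ψ` preserves `P` and is mixing with respect to `P`. -/
def IsMixing [MeasurableSpace S] (P : Measure S) (ψ : S → S) : Prop :=
  MeasurePreserving ψ P P ∧ ∀ A B : Set S, MeasurableSet A → MeasurableSet B →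
    Tendsto (fun n => P (ψ^[n] ⁻¹' A ∩ B)) atTop (𝓝 (P A * P B))

/-- Every open ball is measurable and has positive measure. -/
def BallsPositive [MetricSpace S] [MeasurableSpace S] (P : Measure S) : Prop :=
  ∀ (x : S) (r : ℝ), 0 < r → MeasurableSet (Metric.ball x r) ∧ 0 < P (Metric.ball x r)

/-- The statement which Q1 asks to prove or disprove. -/
def Question1 : Prop :=
  ∀ (S : Type) [MetricSpace S] [MeasurableSpace S] (P : Measure S) [IsProbabilityMeasure P],
    BallsPositive P → ∀ ψ : S → S, IsMixing P ψ → ∀ A : Set S, MeasurableSet A → 0 < P A →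
    Tendsto (fun n => rho (ψ^[n] '' A)) atTop (𝓝 (rho (univ : Set S)))

/-- The statement which Q2 asks to prove or disprove. -/
def Question2 : Prop :=
  ∀ (S : Type) [MetricSpace S] [MeasurableSpace S] (P : Measure S) [IsProbabilityMeasure P],
    BallsPositive P → ∀ ψ : S → S, IsMixing P ψ →
    (∀ B : Set S, MeasurableSet B → MeasurableSet (ψ '' B)) →
    ∀ A : Set S, MeasurableSet A → 0 < P A →
    Tendsto (fun n => essRho P (ψ^[n] '' A)) atTop (𝓝 (rho (univ : Set S)))

end Q68.TD
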