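import Mathlib
import Pool.Agent.Q68.TD.Defs

/-! An upper bound for `ρ_n` by counting pairs in small classes. -/

open MeasureTheory Filter Topology Set
open scoped ENNReal

namespace Q68.TD

/-- number of pairs `i < j` in the same class -/
def pairs {k : ℕ} {C : Type*} [DecidableEq C] (c : Fin k → C) : ℕ :=
  ∑ i, ∑ j ∈ Finset.Ioi i, if c i = c j then 1 else 0

lemma pairs_count {k : ℕ} {C : Type*} [DecidableEq C] (c : Fin k → C) :
    2 * pairs c + k = ∑ i, ∑ j, if c i = c j then 1 else 0 := by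
  have h1 : ∀ i : Fin k, (∑ j, if c i = c j then (1 : ℕ) else 0) =
      (∑ j ∈ Finset.Ioi i, if c i = c j then 1 else 0) +
      (∑ j ∈ Finset.Iio i, if c i = c j then 1 else 0) + 1 := by
    intro i
    have hu : (Finset.univ : Finset (Fin k)) = (Finset.Ioi i ∪ Finset.Iio i) ∪ {i} := by
      ext j
      simp only [Finset.mem_univ, Finset.mem_union, Finset.mem_Ioi, Finset.mem_Iio,
        Finset.mem_singleton, true_iff]
      rcases lt_trichotomy i j with h | h | h
      · exact Or.inl (Or.inl h)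
      · exact Or.inr h.symm
      · exact Or.inl (Or.inr h)
    rw [hu, Finset.sum_union, Finset.sum_union, Finset.sum_singleton, if_pos rfl]
    · rw [Finset.disjoint_left]
      intro a ha hb
      rw [Finset.mem_Ioi] at ha
      rw [Finset.mem_Iio] at hb
      exact absurd ha (not_lt.2 hb.le)
    · rw [Finset.disjoint_left]
      intro a ha hb
      rw [Finset.mem_singleton] at hb
      subst hb
      simp at ha
  have h2 : ∑ i : Fin k, (∑ j ∈ Finset.Iio i, if c i = c j then (1 : ℕ) else 0) = pairs c := by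
    unfold pairs
    rw [Finset.sum_comm' (t' := Finset.univ) (s' := fun j => Finset.Ioi j)]
    · refine Finset.sum_congr rfl fun i _ => Finset.sum_congr rfl fun j _ => ?_
      by_cases h : c i = c j
      · rw [if_pos h, if_pos h.symm]
      · rw [if_neg h, if_neg (Ne.symm h)]
    · intro x y
      simp
  simp_rw [h1]
  rw [Finset.sum_add_distrib, Finset.sum_add_distrib, h2]
  simp [pairs]
  ring

lemma sq_le_classes {k : ℕ} {C : Type*} [DecidableEq C] [Fintype C] (c : Fin k → C) :
    k ^ 2 ≤ Fintype.card C * (2 * pairs c + k) := by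
  rw [pairs_count]
  have e1 : ∑ a : C, ∑ i : Fin k, (if c i = a then (1 : ℕ) else 0) = k := by
    rw [Finset.sum_comm]
    simp
  have e2 : ∑ a : C, (∑ i : Fin k, (if c i = a then (1 : ℕ) else 0)) ^ 2 =
      ∑ i, ∑ j, if c i = c j then 1 else 0 := by
    simp_rw [sq, Finset.sum_mul_sum]
    rw [Finset.sum_comm]
    refine Finset.sum_congr rfl fun i _ => ?_
    rw [Finset.sum_comm]
    refine Finset.sum_congr rfl fun j _ => ?_
    simp only [mul_ite, mul_one, mul_zero]
    by_cases h : c i = c j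
    · rw [if_pos h, h]
      have : ∀ a : C, (if c j = a then (if c j = a then (1 : ℕ) else 0) else 0) =
          if c j = a then 1 else 0 := by
        intro a; by_cases ha : c j = a <;> simp [ha]
      simp_rw [this]
      simp
    · rw [if_neg h]
      apply Finset.sum_eq_zero
      intro a _
      by_cases ha : c j = a
      · rw [if_pos ha, if_neg]
        rw [← ha]; exact h
      · rw [if_neg ha]
  have := sq_sum_le_card_mul_sum_sq (s := (Finset.univ : Finset C))
    (f := fun a => ∑ i : Fin k, (if c i = a then (1 : ℕ) else 0))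
  rw [e1, e2, Finset.card_univ] at this
  exact this

variable {S : Type*} [MetricSpace S]

lemma rhoN_le_one (hd : ∀ x y : S, edist x y ≤ 1) (k : ℕ) (A : Set S) (hk : 2 ≤ k) :
    rhoN k A ≤ 1 := by
  unfold rhoN
  refine iSup_le fun p => iSup_le fun _ => ?_
  refine Finset.prod_le_one' fun i _ => Finset.prod_le_one' fun j _ => ?_
  apply ENNReal.rpow_le_one (hd _ _)
  have : (2 : ℝ) ≤ k := by exact_mod_cast hk
  apply div_nonneg (by norm_num)
  nlinarith

theorem rhoN_le_of_classes (hd : ∀ x y : S, edist x y ≤ 1) {B : Set S} {C : Type*} [DecidableEq C]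
    [Fintype C] (c : S → C) {W : ℝ≥0∞} (hW : W ≤ 1)
    (hc : ∀ x ∈ B, ∀ y ∈ B, c x = c y → edist x y ≤ W) {N : ℕ} (hN : Fintype.card C ≤ N)
    (hN0 : 0 < N) {k : ℕ} (hk : 2 * N ≤ k) : rhoN k B ≤ W ^ (1 / (2 * N) : ℝ) := by
  have hk2 : 2 ≤ k := by omega
  have hkr : (2 : ℝ) ≤ k := by exact_mod_cast hk2
  set e : ℝ := 2 / ((k : ℝ) * ((k : ℝ) - 1)) with he
  have he0 : 0 ≤ e := div_nonneg (by norm_num) (by nlinarith)
  unfold rhoN
  refine iSup_le fun p => iSup_le fun hp => ?_
  have step1 : ∏ i, ∏ j ∈ Finset.Ioi i, edist (p i) (p j) ^ e ≤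
      ∏ i, ∏ j ∈ Finset.Ioi i, (W ^ e) ^ (if c (p i) = c (p j) then 1 else 0) := by
    refine Finset.prod_le_prod' fun i _ => Finset.prod_le_prod' fun j _ => ?_
    by_cases h : c (p i) = c (p j)
    · rw [if_pos h, pow_one]
      exact ENNReal.rpow_le_rpow (hc _ (hp i) _ (hp j) h) he0
    · rw [if_neg h, pow_zero]
      exact ENNReal.rpow_le_one (hd _ _) he0
  refine step1.trans ?_
  have step2 : ∏ i, ∏ j ∈ Finset.Ioi i, (W ^ e) ^ (if c (p i) = c (p j) then 1 else 0) =
      (W ^ e) ^ (pairs (fun i => c (p i))) := by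
    simp_rw [Finset.prod_pow_eq_pow_sum]
    rfl
  rw [step2, ← ENNReal.rpow_natCast, ← ENNReal.rpow_mul]
  apply ENNReal.rpow_le_rpow_of_exponent_ge hW
  have h1 := sq_le_classes (fun i => c (p i))
  set M := pairs (fun i => c (p i)) with hM
  have h2 : (k : ℝ) ^ 2 ≤ N * (2 * M + k) := by
    have : k ^ 2 ≤ N * (2 * M + k) := h1.trans (Nat.mul_le_mul_right _ hN)
    exact_mod_cast this
  have hNr : (0 : ℝ) < N := by exact_mod_cast hN0
  have hkN : (2 : ℝ) * N ≤ k := by exact_mod_cast hk
  have h3 : (k : ℝ) ^ 2 ≤ 4 * N * M := by nlinarith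
  rw [he, div_mul_eq_mul_div, div_le_div_iff₀ (by positivity) (by nlinarith)]
  nlinarith

end Q68.TD
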