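import Mathlib

/-! A family of ultrametrics on `ℤ → ℕ`. -/

open MeasureTheory Filter Topology Set
open scoped ENNReal

namespace Q68.TD

/-- agreement of the coordinates of absolute value less than `n` -/
def agree (n : ℕ) (x y : ℤ → ℕ) : Prop := ∀ i : ℤ, i.natAbs < n → x i = y i

lemma agree_mono {n m : ℕ} (h : n ≤ m) {x y : ℤ → ℕ} (hx : agree m x y) : agree n x y :=
  fun i hi => hx i (lt_of_lt_of_le hi h)

lemma agree_symm {n : ℕ} {x y : ℤ → ℕ} (hx : agree n x y) : agree n y x :=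
  fun i hi => (hx i hi).symm

lemma agree_trans {n : ℕ} {x y z : ℤ → ℕ} (hx : agree n x y) (hy : agree n y z) : agree n x z :=
  fun i hi => (hx i hi).trans (hy i hi)

lemma agree_zero (x y : ℤ → ℕ) : agree 0 x y := fun _ hi => absurd hi (Nat.not_lt_zero _)

lemma exists_not_agree {x y : ℤ → ℕ} (h : x ≠ y) : ∃ n, ¬ agree (n + 1) x y := by
  obtain ⟨i, hi⟩ := Function.ne_iff.1 h
  exact ⟨i.natAbs, fun h' => hi (h' i (Nat.lt_succ_self _))⟩

open Classical in
/-- the first level where two points differ -/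
noncomputable def fd (x y : ℤ → ℕ) : ℕ :=
  if h : x ≠ y then Nat.find (exists_not_agree h) else 0

lemma agree_iff_le_fd {x y : ℤ → ℕ} (h : x ≠ y) (n : ℕ) : agree n x y ↔ n ≤ fd x y := by
  classical
  unfold fd
  rw [dif_pos h, Nat.le_find_iff]
  constructor
  · intro hn m hm h'
    exact h' (agree_mono hm hn)
  · intro hn
    rcases n with _ | n
    · exact agree_zero _ _
    · have := hn n (Nat.lt_succ_self n)
      push Not at this
      exact this

variable (w : ℕ → ℝ)

open Classical in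
/-- the distance `w (fd x y)` -/
noncomputable def wd (x y : ℤ → ℕ) : ℝ := if x = y then 0 else w (fd x y)

lemma wd_self (x : ℤ → ℕ) : wd w x x = 0 := by simp [wd]

lemma fd_comm (x y : ℤ → ℕ) : fd x y = fd y x := by
  by_cases h : x = y
  · subst h; rfl
  · apply le_antisymm
    · rw [← agree_iff_le_fd (Ne.symm h)]
      exact agree_symm ((agree_iff_le_fd h _).2 le_rfl)
    · rw [← agree_iff_le_fd h]
      exact agree_symm ((agree_iff_le_fd (Ne.symm h) _).2 le_rfl)

lemma wd_comm (x y : ℤ → ℕ) : wd w x y = wd w y x := by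
  unfold wd
  rw [fd_comm]
  by_cases h : x = y
  · subst h; rfl
  · rw [if_neg h, if_neg (Ne.symm h)]

variable {w}

lemma wd_le_iff (hw : StrictAnti w) (hpos : ∀ n, 0 < w n) (x y : ℤ → ℕ) (n : ℕ) :
    wd w x y ≤ w n ↔ agree n x y := by
  unfold wd
  by_cases h : x = y
  · subst h
    rw [if_pos rfl]
    exact ⟨fun _ _ _ => rfl, fun _ => (hpos n).le⟩
  · rw [if_neg h, hw.le_iff_ge, agree_iff_le_fd h]

lemma wd_lt_iff (hw : StrictAnti w) (hpos : ∀ n, 0 < w n) (x y : ℤ → ℕ) (n : ℕ) :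
    wd w x y < w n ↔ agree (n + 1) x y := by
  unfold wd
  by_cases h : x = y
  · subst h
    rw [if_pos rfl]
    exact ⟨fun _ _ _ => rfl, fun _ => hpos n⟩
  · rw [if_neg h, hw.lt_iff_gt, agree_iff_le_fd h]
    exact Iff.rfl

lemma wd_nonneg (hpos : ∀ n, 0 < w n) (x y : ℤ → ℕ) : 0 ≤ wd w x y := by
  unfold wd
  split_ifs
  · exact le_rfl
  · exact (hpos _).le

lemma wd_ultra (hw : StrictAnti w) (hpos : ∀ n, 0 < w n) (x y z : ℤ → ℕ) :
    wd w x z ≤ max (wd w x y) (wd w y z) := by
  by_cases h : x = y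
  · subst h; exact le_max_right _ _
  by_cases h' : y = z
  · subst h'; exact le_max_left _ _
  have e1 : wd w x y = w (fd x y) := if_neg h
  have e2 : wd w y z = w (fd y z) := if_neg h'
  rcases le_total (fd x y) (fd y z) with hle | hle
  · apply le_max_of_le_left
    rw [e1, wd_le_iff hw hpos]
    exact agree_trans ((agree_iff_le_fd h _).2 le_rfl) (agree_mono hle ((agree_iff_le_fd h' _).2 le_rfl))
  · apply le_max_of_le_right
    rw [e2, wd_le_iff hw hpos]
    exact agree_trans (agree_mono hle ((agree_iff_le_fd h _).2 le_rfl)) ((agree_iff_le_fd h' _).2 le_rfl)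

lemma wd_triangle (hw : StrictAnti w) (hpos : ∀ n, 0 < w n) (x y z : ℤ → ℕ) :
    wd w x z ≤ wd w x y + wd w y z := by
  refine (wd_ultra hw hpos x y z).trans (max_le ?_ ?_)
  · linarith [wd_nonneg hpos y z]
  · linarith [wd_nonneg hpos x y]

lemma eq_of_wd (hpos : ∀ n, 0 < w n) (x y : ℤ → ℕ) (h : wd w x y = 0) : x = y := by
  by_contra hne
  unfold wd at h
  rw [if_neg hne] at h
  exact (hpos _).ne' h

lemma isOpen_agree (x : ℤ → ℕ) (n : ℕ) : IsOpen {y | agree n x y} := by
  have : {y : ℤ → ℕ | agree n x y} =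
      Set.pi (Finset.Ioo (-(n : ℤ)) n : Set ℤ) (fun i => {x i}) := by
    ext y
    simp only [agree, Set.mem_ofPred_eq, Set.mem_pi, Finset.coe_Ioo, Set.mem_Ioo,
      Set.mem_singleton_iff]
    constructor
    · intro h i hi
      exact (h i (by omega)).symm
    · intro h i hi
      exact (h i (by omega)).symm
  rw [this]
  exact isOpen_set_pi (Finset.finite_toSet _) fun i _ => isOpen_discrete _

lemma isOpen_iff_wd (hw : StrictAnti w) (hpos : ∀ n, 0 < w n) (hlim : Tendsto w atTop (𝓝 0))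
    (s : Set (ℤ → ℕ)) : IsOpen s ↔ ∀ x ∈ s, ∃ ε > 0, ∀ y, wd w x y < ε → y ∈ s := by
  constructor
  · intro hs x hx
    obtain ⟨I, u, hu, hsub⟩ := isOpen_pi_iff.1 hs x hx
    refine ⟨w (I.sup Int.natAbs), hpos _, fun y hy => hsub ?_⟩
    rw [wd_lt_iff hw hpos] at hy
    intro i hi
    have : x i = y i := hy i (Nat.lt_succ_of_le (Finset.le_sup (f := Int.natAbs) hi))
    rw [← this]
    exact (hu i hi).2
  · intro h
    rw [isOpen_iff_forall_mem_open]
    intro x hx
    obtain ⟨ε, hε, hy⟩ := h x hx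
    obtain ⟨n, hn⟩ := (hlim.eventually (gt_mem_nhds hε)).exists
    refine ⟨{y | agree n x y}, fun y hxy => hy y ?_, isOpen_agree x n, fun i _ => rfl⟩
    exact lt_of_le_of_lt ((wd_le_iff hw hpos x y n).2 hxy) hn

/-- the metric space structure given by `w`; its topology is the product topology -/
noncomputable abbrev wMetric (w : ℕ → ℝ) (hw : StrictAnti w) (hpos : ∀ n, 0 < w n)
    (hlim : Tendsto w atTop (𝓝 0)) : MetricSpace (ℤ → ℕ) :=
  MetricSpace.ofDistTopology (wd w) (wd_self w) (wd_comm w) (wd_triangle hw hpos)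
    (isOpen_iff_wd hw hpos hlim) (eq_of_wd hpos)

end Q68.TD
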