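import Mathlib
import Pool.Agent.Q68.TD.Count
import Pool.Agent.Q68.TD.Metric
import Pool.Agent.Q68.Bern

/-! The example. -/

open MeasureTheory Filter Topology Set ProbabilityTheory
open scoped ENNReal

namespace Q68.TD

/-- the law of one coordinate: geometric with parameter `1/2` -/
noncomputable def mu0 : Measure ℕ := geometricMeasure (⟨1 / 2, by norm_num, by norm_num⟩ : unitInterval)

noncomputable instance : IsProbabilityMeasure mu0 := by unfold mu0; infer_instance

lemma mu0_pos (n : ℕ) : 0 < mu0 {n} := by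
  have h := geometricMeasure_real_singleton_pos (p := (⟨1 / 2, by norm_num, by norm_num⟩ : unitInterval))
    (by intro h; have := congrArg Subtype.val h; norm_num at this)
    (by intro h; have := congrArg Subtype.val h; norm_num at this) n
  exact (ENNReal.toReal_pos_iff.1 h).1

lemma mu0_tail (ε : ℝ≥0∞) (hε : 0 < ε) : ∃ K : ℕ, mu0 (Ioi K) < ε := by
  have h : Tendsto (fun n : ℕ => mu0 (Ioi n)) atTop (𝓝 (mu0 (⋂ n : ℕ, Ioi n))) := by
    apply tendsto_measure_iInter_atTop
    · exact fun n => (measurableSet_Ioi).nullMeasurableSet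
    · intro a b hab
      exact Ioi_subset_Ioi hab
    · exact ⟨0, measure_ne_top _ _⟩
  have he : (⋂ n : ℕ, Ioi n) = ∅ := by
    ext x
    simp only [mem_iInter, mem_Ioi, mem_empty_iff_false, iff_false, not_forall, not_lt]
    exact ⟨x, le_rfl⟩
  rw [he, measure_empty] at h
  exact ((tendsto_order.1 h).2 ε hε).exists

/-- the product measure on `ℤ → ℕ` -/
noncomputable def mu : Measure (ℤ → ℕ) := Measure.infinitePi (fun _ : ℤ => mu0)

noncomputable instance : IsProbabilityMeasure mu := by unfold mu; infer_instance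

/-- the bounds of the coordinates -/
lemma exists_K : ∃ K : ℤ → ℕ, 0 < mu {x | ∀ i, x i ≤ K i} := by
  obtain ⟨ε, hε, hsum⟩ := ENNReal.exists_pos_sum_of_countable (one_ne_zero : (1 : ℝ≥0∞) ≠ 0) ℤ
  choose K hK using fun i : ℤ => mu0_tail (ε i) (by exact_mod_cast hε i)
  refine ⟨K, ?_⟩
  have hm : MeasurableSet {x : ℤ → ℕ | ∀ i, x i ≤ K i} := by
    have : {x : ℤ → ℕ | ∀ i, x i ≤ K i} = ⋂ i, (fun x : ℤ → ℕ => x i) ⁻¹' (Iic (K i)) := by
      ext x; simp
    rw [this]
    exact MeasurableSet.iInter fun i => measurable_pi_apply i measurableSet_Iic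
  have hc : mu {x | ∀ i, x i ≤ K i}ᶜ < 1 := by
    have hsub : {x : ℤ → ℕ | ∀ i, x i ≤ K i}ᶜ ⊆ ⋃ i, (fun x : ℤ → ℕ => x i) ⁻¹' (Ioi (K i)) := by
      intro x hx
      simp only [mem_compl_iff, mem_ofPred_eq, not_forall, not_le] at hx
      obtain ⟨i, hi⟩ := hx
      exact mem_iUnion.2 ⟨i, hi⟩
    calc mu {x | ∀ i, x i ≤ K i}ᶜ ≤ mu (⋃ i, (fun x : ℤ → ℕ => x i) ⁻¹' (Ioi (K i))) :=
          measure_mono hsub
      _ ≤ ∑' i, mu ((fun x : ℤ → ℕ => x i) ⁻¹' (Ioi (K i))) := measure_iUnion_le _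
      _ ≤ ∑' i, (ε i : ℝ≥0∞) := by
          refine ENNReal.tsum_le_tsum fun i => ?_
          have h := (measurePreserving_eval_infinitePi (fun _ : ℤ => mu0) i).measure_preimage
            (s := Ioi (K i)) measurableSet_Ioi.nullMeasurableSet
          have h' : mu ((fun x : ℤ → ℕ => x i) ⁻¹' (Ioi (K i))) = mu0 (Ioi (K i)) := h
          rw [h']
          exact (hK i).le
      _ < 1 := hsum
  by_contra h0
  have h0 : mu {x | ∀ i, x i ≤ K i} = 0 := le_antisymm (not_lt.1 h0) bot_le
  rw [prob_compl_eq_one_sub hm, h0] at hc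
  simp at hc

/-- the bounds of the coordinates, chosen once and for all -/
noncomputable def K : ℤ → ℕ := exists_K.choose

lemma K_pos : 0 < mu {x | ∀ i, x i ≤ K i} := exists_K.choose_spec

/-- a bound for `K i`, `|i| ≤ 2 m` -/
noncomputable def b (m : ℕ) : ℕ := (Finset.Icc (-(2 * m : ℤ)) (2 * m)).sup K

lemma b_mono : Monotone b := by
  intro m m' h
  apply Finset.sup_mono
  intro i hi
  rw [Finset.mem_Icc] at hi ⊢
  omega

lemma K_le_b {m : ℕ} {i : ℤ} (hi : i.natAbs ≤ 2 * m) : K i ≤ b m :=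
  Finset.le_sup (f := K) (Finset.mem_Icc.2 (by omega))

/-- bound for the number of classes -/
noncomputable def A (m : ℕ) : ℕ := (b m + 2) ^ (2 * m + 1)

lemma A_mono : Monotone A := by
  intro m m' h
  unfold A
  calc (b m + 2) ^ (2 * m + 1) ≤ (b m' + 2) ^ (2 * m + 1) :=
        Nat.pow_le_pow_left (Nat.add_le_add_right (b_mono h) 2) _
    _ ≤ (b m' + 2) ^ (2 * m' + 1) := Nat.pow_le_pow_right (by omega) (by omega)

lemma A_pos (m : ℕ) : 0 < A m := by unfold A; positivity

/-- the weights -/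
noncomputable def w (m : ℕ) : ℝ := (1 / 2 : ℝ) ^ (m * A m)

lemma w_anti : StrictAnti w := by
  intro m m' h
  unfold w
  apply pow_lt_pow_right_of_lt_one₀ (by norm_num) (by norm_num)
  calc m * A m ≤ m * A m' := Nat.mul_le_mul_left _ (A_mono h.le)
    _ < m' * A m' := Nat.mul_lt_mul_of_pos_right h (A_pos m')

lemma w_pos (n : ℕ) : 0 < w n := by unfold w; positivity

lemma w_zero : w 0 = 1 := by simp [w]

lemma w_le (m : ℕ) : w m ≤ (1 / 2 : ℝ) ^ m := by
  unfold w
  exact pow_le_pow_of_le_one (by norm_num) (by norm_num) (Nat.le_mul_of_pos_right _ (A_pos m))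

lemma w_lim : Tendsto w atTop (𝓝 0) :=
  squeeze_zero (fun n => (w_pos n).le) w_le
    (tendsto_pow_atTop_nhds_zero_of_lt_one (by norm_num) (by norm_num))

/-- The metric of the example. -/
noncomputable abbrev met : MetricSpace (ℤ → ℕ) := wMetric w w_anti w_pos w_lim

lemma dist_eq (x y : ℤ → ℕ) : @dist _ met.toDist x y = wd w x y := rfl

lemma edist_eq (x y : ℤ → ℕ) : @edist _ met.toEDist x y = ENNReal.ofReal (wd w x y) := by
  let _ := met
  rw [edist_dist, dist_eq]

lemma wd_le_one (x y : ℤ → ℕ) : wd w x y ≤ 1 := by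
  rw [← w_zero, wd_le_iff w_anti w_pos]
  exact agree_zero _ _

/-- the shift of the integers -/
def tau (i : ℤ) : ℤ := i + 1

lemma tau_inj : Function.Injective tau := fun a b h => by unfold tau at h; omega

lemma tau_iter (n : ℕ) (i : ℤ) : tau^[n] i = i + n := by
  induction n with
  | zero => simp
  | succ n ih => rw [Function.iterate_succ_apply', ih]; unfold tau; push_cast; ring

/-- The bilateral shift, as a homeomorphism. -/
def shift : (ℤ → ℕ) ≃ₜ (ℤ → ℕ) where
  toFun := Bern.sh tau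
  invFun := Bern.sh (fun i => i - 1)
  left_inv := fun x => by funext i; simp [Bern.sh, tau]
  right_inv := fun x => by funext i; simp [Bern.sh, tau]
  continuous_toFun := continuous_pi fun i => continuous_apply _
  continuous_invFun := continuous_pi fun i => continuous_apply _

lemma shift_iter_apply (n : ℕ) (x : ℤ → ℕ) (i : ℤ) : (shift^[n] x) i = x (i + n) := by
  have : (⇑shift)^[n] = Bern.sh (tau^[n]) := Bern.sh_iter tau n
  rw [this]
  simp [Bern.sh, tau_iter]

/-- the set whose iterates are small -/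
def A0 : Set (ℤ → ℕ) := {x | ∀ i, x i ≤ K i}

lemma image_sub (n : ℕ) : shift^[n] '' A0 ⊆ {y | ∀ i, y i ≤ K (i + n)} := by
  rintro y ⟨x, hx, rfl⟩ i
  rw [shift_iter_apply]
  exact hx _

lemma A0_closed : IsClosed A0 := by
  have : A0 = ⋂ i, (fun x : ℤ → ℕ => x i) ⁻¹' (Iic (K i)) := by
    ext x; simp [A0]
  rw [this]
  exact isClosed_iInter fun i => (isClosed_discrete _).preimage (continuous_apply i)

lemma rhoN_image_le {n m : ℕ} (hnm : n ≤ m) {k : ℕ} (hk : 2 * A m ≤ k) :
    @rhoN _ met k (shift^[n] '' A0) ≤ ENNReal.ofReal (w m) ^ (1 / (2 * A m) : ℝ) := by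
  classical
  let _ := met
  have hcard : Fintype.card (↥(Finset.Ioo (-(m : ℤ)) m) → Fin (b m + 2)) ≤ A m := by
    rw [Fintype.card_fun, Fintype.card_coe, Fintype.card_fin, Int.card_Ioo]
    unfold A
    apply Nat.pow_le_pow_right (by omega)
    omega
  have key := rhoN_le_of_classes (S := ℤ → ℕ) (B := shift^[n] '' A0)
    (fun x y => by
      rw [edist_eq]; exact ENNReal.ofReal_le_one.2 (wd_le_one x y))
    (C := ↥(Finset.Ioo (-(m : ℤ)) m) → Fin (b m + 2))
    (fun x i => ⟨min (x i) (b m + 1), by omega⟩)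
    (W := ENNReal.ofReal (w m))
    (by
      apply ENNReal.ofReal_le_one.2
      rw [← w_zero]
      exact w_anti.antitone (Nat.zero_le m))
    (by
      intro x hx y hy hxy
      rw [edist_eq]
      apply ENNReal.ofReal_le_ofReal
      rw [wd_le_iff w_anti w_pos]
      intro i hi
      have h1 := congrFun hxy ⟨i, Finset.mem_Ioo.2 (by omega)⟩
      have h2 : min (x i) (b m + 1) = min (y i) (b m + 1) := congrArg Fin.val h1
      have h3 : x i ≤ b m := (image_sub n hx i).trans (K_le_b (by omega))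
      have h4 : y i ≤ b m := (image_sub n hy i).trans (K_le_b (by omega))
      omega)
    hcard (A_pos m) hk
  exact key

lemma small_pow (m : ℕ) : ENNReal.ofReal (w m) ^ (1 / (2 * A m) : ℝ) =
    ENNReal.ofReal ((1 / 2 : ℝ) ^ ((m : ℝ) / 2)) := by
  have hA : (0 : ℝ) < A m := by exact_mod_cast A_pos m
  rw [ENNReal.ofReal_rpow_of_pos (w_pos m)]
  congr 1
  unfold w
  rw [← Real.rpow_natCast, ← Real.rpow_mul (by norm_num)]
  congr 1
  push_cast
  field_simp

lemma tendsto_rhoN_image (n : ℕ) :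
    Tendsto (fun k => @rhoN _ met k (shift^[n] '' A0)) atTop (𝓝 0) := by
  have hlim : Tendsto (fun m : ℕ => ENNReal.ofReal ((1 / 2 : ℝ) ^ ((m : ℝ) / 2))) atTop (𝓝 0) := by
    rw [← ENNReal.ofReal_zero]
    apply ENNReal.tendsto_ofReal
    have h1 : Tendsto (fun m : ℕ => (m : ℝ) / 2) atTop atTop :=
      tendsto_natCast_atTop_atTop.atTop_div_const (by norm_num)
    exact (tendsto_rpow_atTop_of_base_lt_one (1 / 2 : ℝ) (by norm_num) (by norm_num)).comp h1
  rw [ENNReal.tendsto_nhds_zero]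
  intro ε hε
  obtain ⟨m, hm1, hm2⟩ := ((ENNReal.tendsto_nhds_zero.1 hlim ε hε).and (eventually_ge_atTop n)).exists
  filter_upwards [eventually_ge_atTop (2 * A m)] with k hk
  exact (rhoN_image_le hm2 hk).trans ((small_pow m).le.trans hm1)

lemma rhoN_univ {k : ℕ} (hk : 2 ≤ k) : @rhoN _ met k (univ : Set (ℤ → ℕ)) = 1 := by
  let _ := met
  apply le_antisymm
  · apply rhoN_le_one _ k _ hk
    intro x y
    rw [edist_eq]
    exact ENNReal.ofReal_le_one.2 (wd_le_one x y)
  · unfold rhoN
    refine le_iSup_of_le (fun i : Fin k => (fun _ => (i : ℕ))) (le_iSup_of_le (fun _ => mem_univ _) ?_)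
    apply le_of_eq
    symm
    refine Finset.prod_eq_one fun i _ => Finset.prod_eq_one fun j hj => ?_
    have hij : i ≠ j := (Finset.mem_Ioi.1 hj).ne
    have : wd w (fun _ => (i : ℕ)) (fun _ => (j : ℕ)) = 1 := by
      apply le_antisymm (wd_le_one _ _)
      rw [← w_zero]
      by_contra hlt
      rw [not_le, wd_lt_iff w_anti w_pos] at hlt
      exact hij (Fin.ext (hlt 0 (by simp)))
    rw [edist_eq, this, ENNReal.ofReal_one, ENNReal.one_rpow]

lemma balls : @BallsPositive _ met _ mu := by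
  let _ := met
  intro x r hr
  have hopen : IsOpen (Metric.ball x r) := Metric.isOpen_ball
  refine ⟨hopen.measurableSet, ?_⟩
  obtain ⟨m, hm⟩ := (w_lim.eventually (gt_mem_nhds hr)).exists
  have hsub : Set.pi (Finset.Ioo (-(m : ℤ)) m : Set ℤ) (fun i => {x i}) ⊆ Metric.ball x r := by
    intro y hy
    rw [Metric.mem_ball, dist_eq]
    refine lt_of_le_of_lt ((wd_le_iff w_anti w_pos y x m).2 ?_) hm
    intro i hi
    exact hy i (by simp; omega)
  refine lt_of_lt_of_le ?_ (measure_mono hsub)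
  unfold mu
  rw [Measure.infinitePi_pi _ (fun i _ => measurableSet_singleton _)]
  rw [pos_iff_ne_zero, Finset.prod_ne_zero_iff]
  exact fun i _ => (mu0_pos _).ne'

lemma mixing_shift : IsMixing mu shift := by
  refine ⟨Bern.mp_sh mu0 tau_inj, fun A B hA hB => ?_⟩
  apply Bern.mixing mu0 tau_inj _ hA hB
  intro i j
  filter_upwards [eventually_gt_atTop (j - i).toNat] with n hn
  rw [tau_iter]
  omega

end Q68.TD
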